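import Pool.Agent.W586.CS.Stm

set_option autoImplicit false
open MvPolynomial

namespace Pool.Agent.W586.CS

theorem Lx_smul {d : ℕ} {ι : Type} [Fintype ι] (A : Fin d → Matrix ι ι ℝ) (s : ℝ) (hs : s ≠ 0)
    (x : Fin d → ℝ) (ξ : Finset (Fin d) → ι → ℝ) :
    Lx (fun j => s • A j) x ξ = s • Lx A (s⁻¹ • x) ξ := by
  funext I a
  simp only [Lx, Pi.smul_apply, smul_eq_mul, Finset.mul_sum, Matrix.smul_apply]
  refine Finset.sum_congr rfl fun j _ => ?_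
  rw [mul_sub, mul_sub, mul_sub]
  congr 1
  · rw [Finset.mul_sum, Finset.mul_sum, Finset.mul_sum]
    refine Finset.sum_congr rfl fun b _ => ?_
    ring
  · field_simp

theorem nsq_smul {d : ℕ} {ι : Type} [Fintype ι] (s : ℝ) (ξ : Finset (Fin d) → ι → ℝ) :
    nsq (s • ξ) = s ^ 2 * nsq ξ := by
  simp only [nsq, Pi.smul_apply, smul_eq_mul, Finset.mul_sum]
  refine Finset.sum_congr rfl fun I _ => Finset.sum_congr rfl fun a _ => ?_
  ring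

theorem nsq_nonneg {d : ℕ} {ι : Type} [Fintype ι] (ξ : Finset (Fin d) → ι → ℝ) : 0 ≤ nsq ξ :=
  Finset.sum_nonneg fun _ _ => Finset.sum_nonneg fun _ _ => sq_nonneg _

theorem core (hGAU : S_GAU) (hIP : S_IP) (hSYM : S_SYM) (hSQ : S_SQ) (hFIL1 : S_FIL1)
    (hFIL2 : S_FIL2) (hPAR : S_PAR) (hKB : S_KB) (hMPOS : S_MPOS) (hLEV : S_LEV)
    (hLOWER : S_LOWER) (hCPT : S_CPT) (hABS : S_ABS) : S_CORE := by
  intro d ι _ _ A hA
  by_contra hcon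
  push Not at hcon
  have hinj : ∀ (x : Fin d → ℝ) (ξ : Finset (Fin d) → ι → ℝ), Lx A x ξ = 0 → ξ = 0 := by
    intro x ξ h
    by_contra h0
    exact hcon x ξ h0 h
  obtain ⟨δ, hδ, hlow⟩ := hCPT d ι A hinj
  obtain ⟨s, hs0, hs⟩ : ∃ s : ℝ, 0 < s ∧ (d : ℝ) + 1 ≤ s ^ 2 * δ := by
    refine ⟨((d : ℝ) + 1) / δ + 1, by positivity, ?_⟩
    have h1 : 0 < ((d : ℝ) + 1) / δ := by positivity
    have h2 : ((d : ℝ) + 1) / δ ≤ (((d : ℝ) + 1) / δ + 1) ^ 2 := by nlinarith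
    calc (d : ℝ) + 1 = ((d : ℝ) + 1) / δ * δ := by field_simp
      _ ≤ _ := mul_le_mul_of_nonneg_right h2 hδ.le
  obtain ⟨g⟩ := hGAU d
  have hA' : ∀ j, ((fun j => s • A j) j).IsSymm := by
    intro j
    have := hA j
    simp only [Matrix.IsSymm, Matrix.transpose_smul] at this ⊢
    rw [this]
  have hlow' : ∀ (x : Fin d → ℝ) (ξ : Finset (Fin d) → ι → ℝ),
      ((d : ℝ) + 1) * nsq ξ ≤ nsq (Lx (fun j => s • A j) x ξ) := by
    intro x ξ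
    rw [Lx_smul A s hs0.ne', nsq_smul]
    have h1 := hlow (s⁻¹ • x) ξ
    have h2 := nsq_nonneg ξ
    calc ((d : ℝ) + 1) * nsq ξ ≤ (s ^ 2 * δ) * nsq ξ := mul_le_mul_of_nonneg_right hs h2
      _ = s ^ 2 * (δ * nsq ξ) := by ring
      _ ≤ _ := mul_le_mul_of_nonneg_left h1 (by positivity)
  obtain ⟨κ, hκ0, hκ⟩ := hKB d ι g (fun j => s • A j)
  obtain ⟨ipsymm, ipadd, ipsmul, ippos, -, -, -, -, -⟩ := hIP d ι g
  obtain ⟨p1, p2, p3, p4, p5, p6⟩ := hPAR d ι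
  obtain ⟨v, hv, hv0, hBv⟩ := p6 inferInstance
  refine hABS (V d ι) (ip g) (Fil d ι) (Ev d ι) (Od d ι) (B0 d ι) (KK fun j => s • A j) κ v
    ipsymm ipadd ipsmul ippos (fun m => hFIL1 d ι m) (fun m => (hFIL2 d ι m).1)
    (fun m => (hFIL2 d ι m).2.1) (fun m => (hFIL2 d ι m).2.2.1 _) (hSYM d ι g) hκ0 hκ
    (fun m f hf h => hLEV d ι g m f hf h) p1 (p2 g) p3 p4 (p5 _) hv hv0 hBv ?_ 
    (hLOWER d ι g _ hA' hlow')
  intro f hf hBf
  by_contra hf0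
  have h1 := hSQ d ι f
  rw [hBf, map_zero] at h1
  have h2 : MM f = 0 := by
    have h3 : (2 : ℝ) • MM f = 0 := h1.symm
    exact (smul_eq_zero.mp h3).resolve_left (by norm_num)
  have h3 := hMPOS d ι g f hf
  rw [h2] at h3
  have h4 : ip g f 0 = 0 := by
    rw [ipsymm]
    have := ipsmul 0 f f
    simpa using this
  rw [h4] at h3
  exact absurd (ippos f hf0) (not_lt.mpr h3)

theorem fin (hCPX : S_CPX) (hTR : S_TR) :
    ∀ (n d m : ℕ), 0 < n → 0 < m →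
      ∀ (A : Fin d → Matrix (Fin n) (Fin n) ℂ) (γ : Fin d → Matrix (Fin m) (Fin m) ℂ),
        (∀ j, (A j).IsHermitian) →
        (∀ j, (γ j).IsHermitian) →
        (∀ j, γ j * γ j = 1) →
        (∀ j k, j ≠ k → γ j * γ k = -(γ k * γ j)) →
        ∃ x : Fin d → ℝ,
          (∑ j : Fin d,
            Matrix.kronecker (A j - ((x j : ℂ)) • (1 : Matrix (Fin n) (Fin n) ℂ)) (γ j)).det = 0 := by
  intro n d m hn hm A γ hA _ h1 h2
  obtain ⟨x, ζ, hζ, h⟩ := hCPX n d hn A hA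
  exact ⟨x, hTR n d m hm A γ h1 h2 x ζ hζ h⟩

end Pool.Agent.W586.CS
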