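import Mathlib

/-!
Project CS (MP_9fb148_an, S05597): definitions.
Vectors are families of real polynomials in `d` variables indexed by subsets `I` of `Fin d`
(basis of the exterior algebra) and by `ι`.
-/

set_option autoImplicit false
open MvPolynomial

namespace Pool.Agent.W586.CS

/-- flip the membership of `j` -/
def fl {d : ℕ} (j : Fin d) (I : Finset (Fin d)) : Finset (Fin d) :=
  if j ∈ I then I.erase j else insert j I

/-- sign of the `j`-th Clifford generator -/
def sg {d : ℕ} (j : Fin d) (I : Finset (Fin d)) : ℝ := (-1) ^ (I.filter (fun i => i < j)).card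

/-- `+1` if `j` belongs to `I` and `-1` otherwise -/
def ep {d : ℕ} (j : Fin d) (I : Finset (Fin d)) : ℝ := if j ∈ I then 1 else -1

/-- polynomial vectors -/
abbrev V (d : ℕ) (ι : Type) := Finset (Fin d) → ι → MvPolynomial (Fin d) ℝ

/-- the Clifford generators with square `1` -/
noncomputable def G {d : ℕ} (ι : Type) (j : Fin d) : V d ι →ₗ[ℝ] V d ι where
  toFun f := fun I a => sg j I • f (fl j I) a
  map_add' f g := by funext I a; simp
  map_smul' c f := by funext I a; simp [smul_smul, mul_comm]

/-- the Clifford generators with square `-1` -/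
noncomputable def Cc {d : ℕ} (ι : Type) (j : Fin d) : V d ι →ₗ[ℝ] V d ι where
  toFun f := fun I a => (ep j I * sg j I) • f (fl j I) a
  map_add' f g := by funext I a; simp
  map_smul' c f := by funext I a; simp [smul_smul, mul_comm, mul_left_comm]

/-- multiplication by the `j`-th coordinate -/
noncomputable def Xm {d : ℕ} (ι : Type) (j : Fin d) : V d ι →ₗ[ℝ] V d ι where
  toFun f := fun I a => X j * f I a
  map_add' f g := by funext I a; simp [mul_add]
  map_smul' c f := by funext I a; simp

/-- the `j`-th partial derivative -/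
noncomputable def Dm {d : ℕ} (ι : Type) (j : Fin d) : V d ι →ₗ[ℝ] V d ι where
  toFun f := fun I a => pderiv j (f I a)
  map_add' f g := by funext I a; simp
  map_smul' c f := by funext I a; simp

/-- the action of a matrix on the index in `ι` -/
noncomputable def Am {d : ℕ} {ι : Type} [Fintype ι] (A : Matrix ι ι ℝ) : V d ι →ₗ[ℝ] V d ι where
  toFun f := fun I a => ∑ b, A a b • f I b
  map_add' f g := by funext I a; simp [Finset.sum_add_distrib]
  map_smul' c f := by
    funext I a
    simp only [Pi.smul_apply, RingHom.id_apply, Finset.smul_sum]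
    exact Finset.sum_congr rfl fun b _ => smul_comm _ _ _

/-- the free operator -/
noncomputable def B0 (d : ℕ) (ι : Type) : V d ι →ₗ[ℝ] V d ι :=
  ∑ j : Fin d, (G ι j ∘ₗ Xm ι j + Cc ι j ∘ₗ (Dm ι j - Xm ι j))

/-- the perturbation -/
noncomputable def KK {d : ℕ} {ι : Type} [Fintype ι] (A : Fin d → Matrix ι ι ℝ) : V d ι →ₗ[ℝ] V d ι :=
  -∑ j : Fin d, G ι j ∘ₗ Am (A j)

/-- the number operator -/
noncomputable def MM {d : ℕ} {ι : Type} (f : V d ι) : V d ι :=
  fun I a => ∑ j : Fin d, (X j * pderiv j (f I a) - (1 / 2 : ℝ) • pderiv j (pderiv j (f I a)))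
    + (I.card : ℝ) • f I a

/-- the Gaussian functional on polynomials -/
structure Gau (d : ℕ) where
  Φ : MvPolynomial (Fin d) ℝ →ₗ[ℝ] ℝ
  nonneg : ∀ p, (∀ x : Fin d → ℝ, 0 ≤ eval x p) → 0 ≤ Φ p
  pos : ∀ p, p ≠ 0 → 0 < Φ (p * p)
  ibp : ∀ (j : Fin d) p, Φ (pderiv j p) = 2 * Φ (X j * p)

/-- the scalar product -/
noncomputable def ip {d : ℕ} (g : Gau d) {ι : Type} [Fintype ι] (f h : V d ι) : ℝ :=
  ∑ I : Finset (Fin d), ∑ a, g.Φ (f I a * h I a)

/-- filtration by total degree -/
def Fil (d : ℕ) (ι : Type) (m : ℕ) : Submodule ℝ (V d ι) where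
  carrier := {f | ∀ I a s, coeff s (f I a) ≠ 0 → s.degree + I.card ≤ m}
  add_mem' := by
    intro f h hf hh I a s hs
    by_cases h1 : coeff s (f I a) = 0
    · apply hh I a s
      intro h2; apply hs
      simp [h1, h2]
    · exact hf I a s h1
  zero_mem' := by intro I a s hs; simp at hs
  smul_mem' := by
    intro c f hf I a s hs
    apply hf I a s
    intro h1; apply hs
    simp [h1]

/-- even part -/
def Ev (d : ℕ) (ι : Type) : Submodule ℝ (V d ι) where
  carrier := {f | ∀ I a, Odd I.card → f I a = 0}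
  add_mem' := by intro f h hf hh I a hI; simp [hf I a hI, hh I a hI]
  zero_mem' := by intro I a _; rfl
  smul_mem' := by intro c f hf I a hI; simp [hf I a hI]

/-- odd part -/
def Od (d : ℕ) (ι : Type) : Submodule ℝ (V d ι) where
  carrier := {f | ∀ I a, Even I.card → f I a = 0}
  add_mem' := by intro f h hf hh I a hI; simp [hf I a hI, hh I a hI]
  zero_mem' := by intro I a _; rfl
  smul_mem' := by intro c f hf I a hI; simp [hf I a hI]

/-- the localizer at the point `x`, in the exterior algebra representation -/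
def Lx {d : ℕ} {ι : Type} [Fintype ι] (A : Fin d → Matrix ι ι ℝ) (x : Fin d → ℝ)
    (ξ : Finset (Fin d) → ι → ℝ) : Finset (Fin d) → ι → ℝ :=
  fun I a => ∑ j : Fin d, sg j I * (∑ b, A j a b * ξ (fl j I) b - x j * ξ (fl j I) a)

/-- squared length -/
def nsq {d : ℕ} {ι : Type} [Fintype ι] (ξ : Finset (Fin d) → ι → ℝ) : ℝ :=
  ∑ I : Finset (Fin d), ∑ a, ξ I a ^ 2

end Pool.Agent.W586.CS
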