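import Pool.Agent.W586.CS.Defs

/-!
Project CS: the statements of the parts.
-/

set_option autoImplicit false
open MvPolynomial

namespace Pool.Agent.W586.CS

/-- one dimensional Gaussian moments -/
def S_G1 : Prop := ∀ k : ℕ,
  MeasureTheory.Integrable (fun x : ℝ => x ^ k * Real.exp (-x ^ 2)) ∧
  (k : ℝ) * ∫ x : ℝ, x ^ (k - 1) * Real.exp (-x ^ 2) = 2 * ∫ x : ℝ, x ^ (k + 1) * Real.exp (-x ^ 2)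

def S_GAU : Prop := ∀ d : ℕ, Nonempty (Gau d)

/-- Clifford relations -/
def S_REL : Prop := ∀ (d : ℕ) (ι : Type),
  (∀ (j : Fin d) (f : V d ι), G ι j (G ι j f) = f) ∧
  (∀ (j k : Fin d) (f : V d ι), j ≠ k → G ι j (G ι k f) = -G ι k (G ι j f)) ∧
  (∀ (j : Fin d) (f : V d ι), Cc ι j (Cc ι j f) = -f) ∧
  (∀ (j k : Fin d) (f : V d ι), j ≠ k → Cc ι j (Cc ι k f) = -Cc ι k (Cc ι j f)) ∧
  (∀ (j k : Fin d) (f : V d ι), G ι j (Cc ι k f) = -Cc ι k (G ι j f)) ∧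
  (∀ (j : Fin d) (f : V d ι) I a, Cc ι j (G ι j f) I a = ep j I • f I a)

/-- the scalar product and the adjoints -/
def S_IP : Prop := ∀ (d : ℕ) (ι : Type) [Fintype ι] (g : Gau d),
  (∀ f h : V d ι, ip g f h = ip g h f) ∧
  (∀ f f' h : V d ι, ip g (f + f') h = ip g f h + ip g f' h) ∧
  (∀ (c : ℝ) (f h : V d ι), ip g (c • f) h = c * ip g f h) ∧
  (∀ f : V d ι, f ≠ 0 → 0 < ip g f f) ∧
  (∀ (j : Fin d) (f h : V d ι), ip g (G ι j f) h = ip g f (G ι j h)) ∧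
  (∀ (j : Fin d) (f h : V d ι), ip g (Cc ι j f) h = -ip g f (Cc ι j h)) ∧
  (∀ (j : Fin d) (f h : V d ι), ip g (Xm ι j f) h = ip g f (Xm ι j h)) ∧
  (∀ (j : Fin d) (f h : V d ι), ip g (Dm ι j f) h = ip g f ((2 : ℝ) • Xm ι j h - Dm ι j h)) ∧
  (∀ (A : Matrix ι ι ℝ) (f h : V d ι), A.IsSymm → ip g (Am A f) h = ip g f (Am A h))

def S_SYM : Prop := ∀ (d : ℕ) (ι : Type) [Fintype ι] (g : Gau d) (f h : V d ι),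
  ip g (B0 d ι f) h = ip g f (B0 d ι h)

def S_SQ : Prop := ∀ (d : ℕ) (ι : Type) (f : V d ι), B0 d ι (B0 d ι f) = (2 : ℝ) • MM f

/-- the filtration -/
def S_FIL1 : Prop := ∀ (d : ℕ) (ι : Type) [Finite ι] (m : ℕ), FiniteDimensional ℝ (Fil d ι m)

def S_FIL2 : Prop := ∀ (d : ℕ) (ι : Type) [Fintype ι] (m : ℕ),
  Fil d ι m ≤ Fil d ι (m + 1) ∧
  (∀ f ∈ Fil d ι m, B0 d ι f ∈ Fil d ι m) ∧
  (∀ (A : Fin d → Matrix ι ι ℝ), ∀ f ∈ Fil d ι m, KK A f ∈ Fil d ι (m + 1)) ∧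
  (∀ f ∈ Fil d ι (m + 1), MM f - ((m : ℝ) + 1) • f ∈ Fil d ι m)

def S_PAR : Prop := ∀ (d : ℕ) (ι : Type) [Fintype ι],
  (∀ m, ∀ f ∈ Fil d ι m, ∃ g ∈ Fil d ι m ⊓ Ev d ι, ∃ h ∈ Fil d ι m ⊓ Od d ι, f = g + h) ∧
  (∀ g : Gau d, ∀ f ∈ Ev d ι, ∀ h ∈ Od d ι, ip g f h = 0) ∧
  (∀ f ∈ Ev d ι, B0 d ι f ∈ Od d ι) ∧ (∀ f ∈ Od d ι, B0 d ι f ∈ Ev d ι) ∧
  (∀ (A : Fin d → Matrix ι ι ℝ), ∀ f ∈ Ev d ι, KK A f ∈ Od d ι) ∧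
  (Nonempty ι → ∃ v ∈ Fil d ι 0 ⊓ Ev d ι, v ≠ 0 ∧ B0 d ι v = 0)

def S_KB : Prop := ∀ (d : ℕ) (ι : Type) [Fintype ι] (g : Gau d) (A : Fin d → Matrix ι ι ℝ),
  ∃ κ : ℝ, 0 ≤ κ ∧ ∀ f : V d ι, ip g (KK A f) (KK A f) ≤ κ * ip g f f

def S_MPOS : Prop := ∀ (d : ℕ) (ι : Type) [Fintype ι] (g : Gau d), ∀ f ∈ Od d ι,
  ip g f f ≤ ip g f (MM f)

def S_LEV : Prop := ∀ (d : ℕ) (ι : Type) [Fintype ι] (g : Gau d) (m : ℕ), ∀ f ∈ Fil d ι (m + 1),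
  (∀ h ∈ Fil d ι m, ip g h f = 0) →
  2 * ((m : ℝ) + 1) * ip g f f ≤ ip g (B0 d ι f) (B0 d ι f)

def S_LOWER : Prop := ∀ (d : ℕ) (ι : Type) [Fintype ι] (g : Gau d) (A : Fin d → Matrix ι ι ℝ),
  (∀ j, (A j).IsSymm) →
  (∀ (x : Fin d → ℝ) (ξ : Finset (Fin d) → ι → ℝ), ((d : ℝ) + 1) * nsq ξ ≤ nsq (Lx A x ξ)) →
  ∀ f : V d ι, ip g f f ≤ ip g (B0 d ι f + KK A f) (B0 d ι f + KK A f)

def S_CPT : Prop := ∀ (d : ℕ) (ι : Type) [Fintype ι] (A : Fin d → Matrix ι ι ℝ),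
  (∀ (x : Fin d → ℝ) (ξ : Finset (Fin d) → ι → ℝ), Lx A x ξ = 0 → ξ = 0) →
  ∃ δ : ℝ, 0 < δ ∧ ∀ (x : Fin d → ℝ) (ξ : Finset (Fin d) → ι → ℝ), δ * nsq ξ ≤ nsq (Lx A x ξ)

/-- the abstract linear algebra argument -/
def S_ABS : Prop := ∀ (V : Type) [AddCommGroup V] [Module ℝ V] (b : V → V → ℝ)
  (F : ℕ → Submodule ℝ V) (E O : Submodule ℝ V) (B K : V →ₗ[ℝ] V) (κ : ℝ) (v : V),
  (∀ f h, b f h = b h f) → (∀ f f' h, b (f + f') h = b f h + b f' h) →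
  (∀ (c : ℝ) f h, b (c • f) h = c * b f h) → (∀ f, f ≠ 0 → 0 < b f f) →
  (∀ m, FiniteDimensional ℝ (F m)) → (∀ m, F m ≤ F (m + 1)) →
  (∀ m, ∀ f ∈ F m, B f ∈ F m) → (∀ m, ∀ f ∈ F m, K f ∈ F (m + 1)) →
  (∀ f h, b (B f) h = b f (B h)) → 0 ≤ κ → (∀ f, b (K f) (K f) ≤ κ * b f f) →
  (∀ m : ℕ, ∀ f ∈ F (m + 1), (∀ h ∈ F m, b h f = 0) → 2 * ((m : ℝ) + 1) * b f f ≤ b (B f) (B f)) →
  (∀ m, ∀ f ∈ F m, ∃ g ∈ F m ⊓ E, ∃ h ∈ F m ⊓ O, f = g + h) →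
  (∀ f ∈ E, ∀ h ∈ O, b f h = 0) → (∀ f ∈ E, B f ∈ O) → (∀ f ∈ O, B f ∈ E) →
  (∀ f ∈ E, K f ∈ O) → v ∈ F 0 ⊓ E → v ≠ 0 → B v = 0 → (∀ f ∈ O, B f = 0 → f = 0) →
  (∀ f, b f f ≤ b (B f + K f) (B f + K f)) → False

/-- the main theorem in the exterior algebra representation, real form -/
def S_CORE : Prop := ∀ (d : ℕ) (ι : Type) [Fintype ι] [Nonempty ι] (A : Fin d → Matrix ι ι ℝ),
  (∀ j, (A j).IsSymm) → ∃ (x : Fin d → ℝ) (ξ : Finset (Fin d) → ι → ℝ), ξ ≠ 0 ∧ Lx A x ξ = 0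

/-- complex form -/
def S_CPX : Prop := ∀ (n d : ℕ), 0 < n → ∀ A : Fin d → Matrix (Fin n) (Fin n) ℂ,
  (∀ j, (A j).IsHermitian) →
  ∃ (x : Fin d → ℝ) (ζ : Finset (Fin d) → Fin n → ℂ), ζ ≠ 0 ∧
    ∀ I a, ∑ j : Fin d, (sg j I : ℂ) * (∑ b, A j a b * ζ (fl j I) b - (x j : ℂ) * ζ (fl j I) a) = 0

/-- transfer to an arbitrary representation -/
def S_TR : Prop := ∀ (n d m : ℕ), 0 < m → ∀ (A : Fin d → Matrix (Fin n) (Fin n) ℂ)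
  (γ : Fin d → Matrix (Fin m) (Fin m) ℂ), (∀ j, γ j * γ j = 1) →
  (∀ j k, j ≠ k → γ j * γ k = -(γ k * γ j)) →
  ∀ (x : Fin d → ℝ) (ζ : Finset (Fin d) → Fin n → ℂ), ζ ≠ 0 →
    (∀ I a, ∑ j : Fin d, (sg j I : ℂ) * (∑ b, A j a b * ζ (fl j I) b - (x j : ℂ) * ζ (fl j I) a) = 0) →
    (∑ j : Fin d,
      Matrix.kronecker (A j - ((x j : ℂ)) • (1 : Matrix (Fin n) (Fin n) ℂ)) (γ j)).det = 0

end Pool.Agent.W586.CS
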